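import Mathlib
import Pool.Agent.P8H13.DS.Thk
import Pool.Agent.P8H13.UL.Core

/-!
# The singular series over linear families in short windows (helper13)
-/

set_option autoImplicit false

namespace Pool.Agent.P8H13.RR

open Finset Filter Topology
open Pool.Agent.N647.RQSS (rr hh one_le_rr one_le_hh prs CT_tuple)
open Pool.Agent.H386R2.HL (tt one_le_tt)
open Pool.Agent.H387R2.Uni (CT tt_le)
open Pool.Agent.P8H13.DS (gg gg_le gg_nonneg hh_split prod_rr rr_eq)
open Pool.Agent.P8H13.AD (dot GenPos lin dot_add through)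
open Pool.Agent.P8H13.UL (val)

/-- the solutions of a linear congruence in an interval -/
theorem cnt_lin (s : ℤ) (hs : s ≠ 0) (c a : ℤ) (l m : ℕ) (hm : 0 < m) :
    (((Ioc a (a + l)).filter (fun t : ℤ => (m : ℤ) ∣ s * t + c)).card : ℝ) ≤
      (s.natAbs : ℝ) * ((l : ℝ) / m + 1) := by
  obtain ⟨d, hd⟩ : ∃ d : ℕ, d = Nat.gcd m s.natAbs := ⟨_, rfl⟩
  have hσ : 0 < s.natAbs := Int.natAbs_pos.2 hs
  have hd0 : 0 < d := by rw [hd]; exact Nat.gcd_pos_of_pos_left _ hm
  have hdm : d ∣ m := by rw [hd]; exact Nat.gcd_dvd_left _ _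
  have hdσ : d ≤ s.natAbs := by rw [hd]; exact Nat.gcd_le_right _ hσ
  obtain ⟨m', hm'⟩ := hdm
  have hm'0 : 0 < m' := by
    rcases Nat.eq_zero_or_pos m' with h | h
    · rw [h, mul_zero] at hm'
      omega
    · exact h
  have h1 : ((Ioc a (a + l)).filter (fun t : ℤ => (m : ℤ) ∣ s * t + c)).card ≤ (range (l / m' + 1)).card := by
    apply card_le_card_of_injOn (fun t => (t - a).toNat / m')
    · intro t ht
      rw [mem_coe, mem_filter, mem_Ioc] at ht
      rw [mem_coe, mem_range, Nat.lt_succ_iff]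
      exact Nat.div_le_div_right (by omega)
    · intro t ht t' ht' h
      rw [mem_coe, mem_filter, mem_Ioc] at ht ht'
      have h2 : (t - a).toNat / m' = (t' - a).toNat / m' := h
      have h3 : (m : ℤ) ∣ s * (t - t') := by
        have := dvd_sub ht.2 ht'.2
        have e : s * t + c - (s * t' + c) = s * (t - t') := by ring
        rwa [e] at this
      have h4 : m ∣ s.natAbs * (t - t').natAbs := by
        rw [← Int.natAbs_mul]
        exact Int.natCast_dvd.1 h3
      have h5 : m' ∣ (t - t').natAbs := by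
        obtain ⟨σ', hσ'⟩ : d ∣ s.natAbs := by rw [hd]; exact Nat.gcd_dvd_right _ _
        have hcop : Nat.Coprime m' σ' := by
          have h6 := Nat.coprime_div_gcd_div_gcd (m := m) (n := s.natAbs) (by rw [← hd]; exact hd0)
          rw [← hd] at h6
          have e1 : m / d = m' := by rw [hm', Nat.mul_div_cancel_left _ hd0]
          have e2 : s.natAbs / d = σ' := by rw [hσ', Nat.mul_div_cancel_left _ hd0]
          rwa [e1, e2] at h6
        have h6 : d * m' ∣ d * (σ' * (t - t').natAbs) := by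
          rw [← hm', ← mul_assoc, ← hσ']
          exact h4
        have h7 := Nat.dvd_of_mul_dvd_mul_left hd0 h6
        exact hcop.dvd_of_dvd_mul_left h7
      have h6 : (m' : ℤ) ∣ t - t' := Int.natCast_dvd.2 h5
      have h7 : (t - a) % m' = (t' - a) % m' := by
        apply Int.emod_eq_emod_iff_emod_sub_eq_zero.2
        apply Int.emod_eq_zero_of_dvd
        have e : t - a - (t' - a) = t - t' := by ring
        rw [e]
        exact h6
      have h8 : (((t - a).toNat : ℕ) : ℤ) = t - a := Int.toNat_of_nonneg (by omega)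
      have h9 : (((t' - a).toNat : ℕ) : ℤ) = t' - a := Int.toNat_of_nonneg (by omega)
      have h10 : (t - a).toNat % m' = (t' - a).toNat % m' := by
        have : (((t - a).toNat : ℕ) : ℤ) % m' = (((t' - a).toNat : ℕ) : ℤ) % m' := by rw [h8, h9, h7]
        exact_mod_cast this
      have h11 := Nat.div_add_mod (t - a).toNat m'
      have h12 := Nat.div_add_mod (t' - a).toNat m'
      rw [h2, h10] at h11
      omega
  rw [card_range] at h1
  have h2 : (((Ioc a (a + l)).filter (fun t : ℤ => (m : ℤ) ∣ s * t + c)).card : ℝ) ≤ ((l / m' + 1 : ℕ) : ℝ) := by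
    exact_mod_cast h1
  refine h2.trans ?_
  push_cast
  have h3 : ((l / m' : ℕ) : ℝ) ≤ (l : ℝ) / m' := Nat.cast_div_le
  have hdr : (0 : ℝ) < d := by exact_mod_cast hd0
  have hm'r : (0 : ℝ) < m' := by exact_mod_cast hm'0
  have h4 : (l : ℝ) / m' = d * ((l : ℝ) / m) := by
    rw [hm']
    push_cast
    field_simp
  have h5 : (d : ℝ) ≤ s.natAbs := by exact_mod_cast hdσ
  have h6 : (1 : ℝ) ≤ s.natAbs := by exact_mod_cast hσ
  have h7 : (0 : ℝ) ≤ (l : ℝ) / m := by positivity
  rw [h4] at h3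
  nlinarith

theorem sum_gg_lin : ∃ C : ℝ, 0 < C ∧ ∀ y : ℕ, 1 ≤ y → ∀ (s : ℤ), s ≠ 0 → ∀ (c a : ℤ) (l : ℕ),
    ∑ t ∈ Ioc a (a + l), gg y (s * t + c) ≤ (s.natAbs : ℝ) * (C * l + y) := by
  classical
  refine ⟨Real.exp (2 * ∑' n : ℕ, 1 / (n : ℝ) ^ 2), Real.exp_pos _, fun y hy s hs c a l => ?_⟩
  have hP : ∀ p ∈ (y + 1).primesBelow, p.Prime := fun p hp => Nat.prime_of_mem_primesBelow hp
  have hc0 : ∀ p ∈ (y + 1).primesBelow, 0 ≤ rr p - 1 := fun p hp => by
    have := one_le_rr (hP p hp)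
    linarith
  refine (sum_le_sum fun t _ => gg_le y (s * t + c)).trans ?_
  rw [sum_comm]
  have h1 : ∀ S ∈ (y + 1).primesBelow.powerset,
      ∑ t ∈ Ioc a (a + l), (if ((∏ p ∈ S, p : ℕ) : ℤ) ∣ s * t + c then ∏ p ∈ S, (rr p - 1) else 0) ≤
        (s.natAbs : ℝ) * (l * ∏ p ∈ S, ((rr p - 1) / p) + ∏ p ∈ S, (rr p - 1)) := by
    intro S hS
    rw [mem_powerset] at hS
    have hpos : 0 < ∏ p ∈ S, p := prod_pos fun p hp => (hP p (hS hp)).pos
    rw [← sum_filter, sum_const, nsmul_eq_mul]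
    have h2 := cnt_lin s hs c a l (∏ p ∈ S, p) hpos
    have h3 : 0 ≤ ∏ p ∈ S, (rr p - 1) := prod_nonneg fun p hp => hc0 p (hS hp)
    refine (mul_le_mul_of_nonneg_right h2 h3).trans (le_of_eq ?_)
    rw [prod_div_distrib]
    push_cast
    ring
  refine (sum_le_sum h1).trans ?_
  rw [← mul_sum, sum_add_distrib, ← mul_sum, ← prod_one_add, ← prod_one_add]
  have h2 : ∏ p ∈ (y + 1).primesBelow, (1 + (rr p - 1)) ≤ y := by
    refine le_trans (le_of_eq (prod_congr rfl fun p _ => ?_)) (prod_rr y hy)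
    ring
  have h3 : ∏ p ∈ (y + 1).primesBelow, (1 + (rr p - 1) / (p : ℝ)) ≤
      Real.exp (2 * ∑' n : ℕ, 1 / (n : ℝ) ^ 2) := by
    have h4 : ∏ p ∈ (y + 1).primesBelow, (1 + (rr p - 1) / (p : ℝ)) ≤
        ∏ p ∈ (y + 1).primesBelow, Real.exp (2 * (1 / (p : ℝ) ^ 2)) := by
      refine prod_le_prod (fun p hp => ?_) fun p hp => ?_
      · have := hc0 p hp
        positivity
      · have hp2 : (2 : ℝ) ≤ p := by exact_mod_cast (hP p hp).two_le
        have h5 : (rr p - 1) / (p : ℝ) ≤ 2 * (1 / (p : ℝ) ^ 2) := by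
          rw [rr_eq (hP p hp).two_le, add_sub_cancel_left, div_div, ← mul_div_assoc, mul_one,
            div_le_div_iff₀ (by nlinarith) (by positivity)]
          nlinarith
        have := Real.add_one_le_exp (2 * (1 / (p : ℝ) ^ 2))
        linarith
    refine h4.trans ?_
    rw [← Real.exp_sum]
    apply Real.exp_le_exp.2
    rw [← mul_sum]
    exact mul_le_mul_of_nonneg_left (Pool.Agent.N647.RQSS.sum_sq_le 0 _) (by norm_num)
  have hl : (0 : ℝ) ≤ l := Nat.cast_nonneg _
  refine mul_le_mul_of_nonneg_left ?_ (Nat.cast_nonneg _)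
  nlinarith [mul_le_mul_of_nonneg_left h3 hl]

open Classical in
/-- few values of a linear form in an interval have a large factor `hh` -/
theorem cell_lin (lam : ℝ) (hlam : 0 < lam) : ∃ C : ℝ, 0 < C ∧ ∀ᶠ x : ℕ in atTop, ∀ l : ℕ, lam * Real.log x ≤ l →
    ∀ s : ℤ, s ≠ 0 → ∀ c a : ℤ, ∀ A : ℝ, 0 < A →
    (((Ioc a (a + l)).filter (fun t : ℤ => s * t + c ≠ 0 ∧ |s * t + c| ≤ x ∧
      A < hh (s * t + c).natAbs)).card : ℝ) ≤ s.natAbs * (C / A * l) := by
  obtain ⟨C₀, hC₀, hsum⟩ := sum_gg_lin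
  refine ⟨Real.exp 2 * (C₀ + 4 / lam), by positivity, ?_⟩
  have hlog : Tendsto (fun x : ℕ => Real.log (x : ℝ)) atTop atTop :=
    Real.tendsto_log_atTop.comp tendsto_natCast_atTop_atTop
  filter_upwards [hlog.eventually_ge_atTop 1, eventually_ge_atTop 1] with x hx1 hx0 l hl s hs c a A hA
  have hxR : (1 : ℝ) ≤ x := by exact_mod_cast hx0
  obtain ⟨y, hy⟩ : ∃ y : ℕ, y = ⌊Real.log x⌋₊ + 3 := ⟨_, rfl⟩
  have hy3 : 3 ≤ y := by omega
  have hy3R : (3 : ℝ) ≤ y := by exact_mod_cast hy3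
  have hyl : Real.log x ≤ y := by
    have := Nat.lt_floor_add_one (Real.log (x : ℝ))
    rw [hy]
    push_cast
    linarith
  have hyu : (y : ℝ) ≤ 4 * Real.log x := by
    have := Nat.floor_le (zero_le_one.trans hx1)
    rw [hy]
    push_cast
    linarith
  have hlogy : 1 ≤ Real.log y := by
    rw [Real.le_log_iff_exp_le (by linarith)]
    have := Real.exp_one_lt_d9
    linarith
  have htt : ∀ d : ℕ, 1 ≤ d → d ≤ x → tt y d ≤ Real.exp 2 := by
    intro d hd1 hd2
    refine (tt_le y d (by omega) hd1).trans (Real.exp_le_exp.2 ?_)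
    rw [div_le_iff₀ (by positivity)]
    have h1 : Real.log d ≤ Real.log x := Real.log_le_log (by exact_mod_cast hd1) (by exact_mod_cast hd2)
    nlinarith
  have h1 : (((Ioc a (a + l)).filter (fun t : ℤ => s * t + c ≠ 0 ∧ |s * t + c| ≤ x ∧
      A < hh (s * t + c).natAbs)).card : ℝ) * A ≤ Real.exp 2 * (s.natAbs * (C₀ * l + y)) := by
    rw [← nsmul_eq_mul]
    refine (card_nsmul_le_sum _ (fun t : ℤ => Real.exp 2 * gg y (s * t + c)) _ ?_).trans ?_
    · intro t ht
      rw [mem_filter] at ht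
      obtain ⟨-, hw1, hw2, hw3⟩ := ht
      have hd1 : 1 ≤ (s * t + c).natAbs := Int.natAbs_pos.2 hw1
      have hd2 : (s * t + c).natAbs ≤ x := by
        rw [← Int.natCast_natAbs] at hw2
        exact_mod_cast hw2
      have h2 := hh_split y (s * t + c).natAbs
      have h3 := htt _ hd1 hd2
      have h5 : gg y ((s * t + c).natAbs : ℕ) = gg y (s * t + c) := by
        unfold Pool.Agent.P8H13.DS.gg
        congr 1
        apply filter_congr
        intro p _
        exact Int.dvd_natAbs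
      have h4 := gg_nonneg y (s * t + c)
      rw [h5] at h2
      have h6 := mul_le_mul_of_nonneg_left h3 h4
      linarith
    · refine (sum_le_sum_of_subset_of_nonneg (filter_subset _ _) fun w _ _ =>
        mul_nonneg (Real.exp_pos _).le (gg_nonneg _ _)).trans ?_
      rw [← mul_sum]
      exact mul_le_mul_of_nonneg_left (hsum y (by omega) s hs c a l) (Real.exp_pos _).le
  have h2 : (y : ℝ) ≤ 4 / lam * l := by
    rw [div_mul_eq_mul_div, le_div_iff₀ hlam]
    nlinarith
  have h4 : (0 : ℝ) ≤ s.natAbs := Nat.cast_nonneg _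
  have h5 : (((Ioc a (a + l)).filter (fun t : ℤ => s * t + c ≠ 0 ∧ |s * t + c| ≤ x ∧
      A < hh (s * t + c).natAbs)).card : ℝ) * A ≤ s.natAbs * (Real.exp 2 * (C₀ + 4 / lam) * l) := by
    refine h1.trans ?_
    have h3 := (Real.exp_pos 2).le
    calc Real.exp 2 * (s.natAbs * (C₀ * l + y)) ≤ Real.exp 2 * (s.natAbs * (C₀ * l + 4 / lam * l)) :=
          mul_le_mul_of_nonneg_left (mul_le_mul_of_nonneg_left (by linarith) h4) h3
      _ = _ := by ring
  rw [div_mul_eq_mul_div, ← mul_div_assoc, le_div_iff₀ hA]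
  exact h5

end Pool.Agent.P8H13.RR
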