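import Mathlib
import Pool.Agent.P8H13.AD.Szk

/-!
# Many homothetic copies in dense sets of vectors, uniformly in the shape (helper13)
-/

set_option autoImplicit false

namespace Pool.Agent.P8H13.RR

open Finset Pool.Agent.H602R3.DHJ Pool.Agent.Y877
open Pool.Agent.P8H13.AD (box box_card)

open Classical in
theorem mszkC (k : ℕ) (α : Type) [Fintype α] [Nonempty α] (ε : ℝ) (hε : 0 < ε) : ∃ n : ℕ, 1 ≤ n ∧
    ∃ c : ℝ, 0 < c ∧
    ∀ (v : α → Fin k → ℤ) (W : ℕ), (∀ a i, |v a i| ≤ W) →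
    ∀ H : ℕ, 2 * n * W ≤ H → 1 ≤ H → ∀ (u : Fin k → ℤ) (B : Finset (Fin k → ℤ)), B ⊆ box u H →
    ε * (H : ℝ) ^ k ≤ B.card → ∃ R : Finset ((Fin k → ℤ) × ℕ), c * (H : ℝ) ^ k ≤ R.card ∧
    ∀ r ∈ R, 1 ≤ r.2 ∧ r.2 ≤ n ∧ ∀ a, (fun i => r.1 i + r.2 * v a i) ∈ B := by
  obtain ⟨N, hN⟩ := dhjT α (ε / (2 * 2 ^ k)) (by positivity)
  obtain ⟨nV, hnV⟩ : ∃ nV : ℕ, nV = Fintype.card (Fin N → α ⊕ Unit) := ⟨_, rfl⟩
  have hnV0 : 0 < nV := by rw [hnV]; exact Fintype.card_pos
  have hnVr : (0 : ℝ) < nV := by exact_mod_cast hnV0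
  refine ⟨N + 1, by omega, ε / (2 * nV), by positivity, fun v W hv H hH hH1 u B hB hBc => ?_⟩
  obtain ⟨sh, hsh⟩ : ∃ sh : (Fin N → α) → Fin k → ℤ, sh = fun w i => ∑ j, v (w j) i := ⟨_, rfl⟩
  have hshb : ∀ w i, |sh w i| ≤ ((N * W : ℕ) : ℤ) := by
    intro w i
    rw [hsh]
    have h2 : |∑ j, v (w j) i| ≤ ∑ j, |v (w j) i| := abs_sum_le_sum_abs _ _
    have h3 : ∑ j, |v (w j) i| ≤ ∑ _j : Fin N, (W : ℤ) := sum_le_sum fun j _ => hv _ _
    rw [sum_const, card_univ, Fintype.card_fin, nsmul_eq_mul] at h3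
    push_cast
    exact h2.trans h3
  obtain ⟨Z, hZ⟩ : ∃ Z : Finset (Fin k → ℤ), Z = box (fun i => u i - ((N * W : ℕ) : ℤ)) (H + 2 * (N * W)) :=
    ⟨_, rfl⟩
  have hZc : (Z.card : ℝ) ≤ 2 ^ k * (H : ℝ) ^ k := by
    rw [hZ, box_card, ← mul_pow]
    push_cast
    refine pow_le_pow_left₀ (by positivity) ?_ _
    have h1 : 2 * (N * W) ≤ H := by
      refine le_trans ?_ hH
      nlinarith
    have h2 : (2 : ℝ) * (N * W) ≤ H := by exact_mod_cast h1
    linarith
  have hcnt : ∀ w, (B.card : ℝ) ≤ ∑ z ∈ Z, (if (fun i => z i + sh w i) ∈ B then (1 : ℝ) else 0) := by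
    intro w
    rw [← sum_filter, sum_const, nsmul_eq_mul, mul_one, Nat.cast_le]
    apply card_le_card_of_injOn (fun b : Fin k → ℤ => fun i => b i - sh w i)
    · intro b hb
      have hb1 := hB (mem_coe.1 hb)
      unfold Pool.Agent.P8H13.AD.box at hb1
      rw [Fintype.mem_piFinset] at hb1
      rw [mem_coe, mem_filter, hZ]
      refine ⟨?_, ?_⟩
      · unfold Pool.Agent.P8H13.AD.box
        rw [Fintype.mem_piFinset]
        intro i
        have h1 := mem_Ioc.1 (hb1 i)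
        have h2 := abs_le.1 (hshb w i)
        rw [mem_Ioc]
        push_cast at h2 ⊢
        constructor
        · show u i - N * W < b i - sh w i
          linarith [h1.1, h2.2]
        · show b i - sh w i ≤ u i - N * W + (H + 2 * (N * W))
          linarith [h1.2, h2.1]
      · have : (fun i => (fun i => b i - sh w i) i + sh w i) = b := by
          funext i
          show b i - sh w i + sh w i = b i
          ring
        rw [this]
        exact mem_coe.1 hb
    · intro b _ b' _ h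
      funext i
      have h1 : b i - sh w i = b' i - sh w i := congrFun h i
      linarith
  obtain ⟨Wz, hWz⟩ : ∃ Wz : (Fin k → ℤ) → Set (Fin N → α), Wz = fun z => {w | (fun i => z i + sh w i) ∈ B} :=
    ⟨_, rfl⟩
  have hTpos : (0 : ℝ) < Fintype.card (Fin N → α) := by exact_mod_cast Fintype.card_pos
  have hdn : ∀ z, dn (Wz z) = (∑ w, (if (fun i => z i + sh w i) ∈ B then (1 : ℝ) else 0)) /
      Fintype.card (Fin N → α) := by
    intro z
    unfold dn av
    congr 1
    refine sum_congr rfl fun w _ => ?_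
    rw [Set.indicator_apply]
    exact if_congr (by rw [hWz]; exact Iff.rfl) rfl rfl
  have hsum : ε * (H : ℝ) ^ k ≤ ∑ z ∈ Z, dn (Wz z) := by
    simp_rw [hdn]
    rw [← sum_div, sum_comm, le_div_iff₀ hTpos]
    have h1 : ∑ _w : Fin N → α, (B.card : ℝ) ≤
        ∑ w, ∑ z ∈ Z, (if (fun i => z i + sh w i) ∈ B then (1 : ℝ) else 0) :=
      sum_le_sum fun w _ => hcnt w
    rw [sum_const, card_univ, nsmul_eq_mul] at h1
    calc ε * (H : ℝ) ^ k * (Fintype.card (Fin N → α) : ℝ)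
        ≤ B.card * (Fintype.card (Fin N → α) : ℝ) := mul_le_mul_of_nonneg_right hBc hTpos.le
      _ = (Fintype.card (Fin N → α) : ℝ) * B.card := mul_comm _ _
      _ ≤ _ := h1
  have hHr : (0 : ℝ) < H := by exact_mod_cast hH1
  obtain ⟨Gd, hG⟩ : ∃ Gd : Finset (Fin k → ℤ), Gd = Z.filter (fun z => ε / (2 * 2 ^ k) ≤ dn (Wz z)) := ⟨_, rfl⟩
  have hGc : ε / 2 * (H : ℝ) ^ k ≤ Gd.card := by
    have h1 : ∑ z ∈ Z, dn (Wz z) ≤ ∑ z ∈ Z, ((if ε / (2 * 2 ^ k) ≤ dn (Wz z) then (1 : ℝ) else 0) + ε / (2 * 2 ^ k)) := by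
      refine sum_le_sum fun z _ => ?_
      split_ifs with h0
      · have := dn_le_one (Wz z)
        have h2 : 0 < ε / (2 * 2 ^ k) := by positivity
        linarith
      · push Not at h0
        linarith
    rw [sum_add_distrib, ← sum_filter, sum_const, sum_const, nsmul_eq_mul, nsmul_eq_mul, mul_one,
      ← hG] at h1
    have h2 : (Z.card : ℝ) * (ε / (2 * 2 ^ k)) ≤ 2 ^ k * (H : ℝ) ^ k * (ε / (2 * 2 ^ k)) :=
      mul_le_mul_of_nonneg_right hZc (by positivity)
    have h3 : (2 : ℝ) ^ k * (H : ℝ) ^ k * (ε / (2 * 2 ^ k)) = ε / 2 * (H : ℝ) ^ k := by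
      field_simp
    linarith
  have hline : ∀ z ∈ Gd, ∃ V : Fin N → α ⊕ Unit, Pr V ∧ ∀ a, ap V (fun _ => a) ∈ Wz z := by
    intro z hz
    rw [hG, mem_filter] at hz
    have hnl : ¬ LFr (Wz z) := fun hl => absurd (hN _ hl) (not_lt.2 hz.2)
    unfold LFr at hnl
    push Not at hnl
    obtain ⟨V, hV, hVW⟩ := hnl
    exact ⟨V, hV, hVW⟩
  choose! V hV hVW using hline
  have hls : ∀ V : Fin N → α ⊕ Unit, ∃ s : Fin k → ℤ, ∀ i a, ∑ j, v (ap V (fun _ => a) j) i = s i + act V * v a i := by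
    intro V
    choose s hs using fun i : Fin k => line_sum V (fun a => v a i)
    exact ⟨s, hs⟩
  choose s hs using hls
  refine ⟨Gd.image (fun z => ((fun i => z i + s (V z) i : Fin k → ℤ), act (V z))), ?_, ?_⟩
  · have h1 : Gd.card ≤ nV * (Gd.image (fun z => ((fun i => z i + s (V z) i : Fin k → ℤ), act (V z)))).card := by
      apply card_le_mul_card_image
      intro b _
      rw [hnV, ← card_univ]
      apply card_le_card_of_injOn (fun z => V z) (fun _ _ => mem_coe.2 (mem_univ _))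
      intro z hz z' hz' h
      rw [mem_coe, mem_filter] at hz hz'
      have h2 : V z = V z' := h
      have h3 : (fun i => z i + s (V z) i : Fin k → ℤ) = fun i => z' i + s (V z') i :=
        congrArg Prod.fst (hz.2.trans hz'.2.symm)
      funext i
      have h4 := congrFun h3 i
      simp only [h2] at h4
      exact add_right_cancel h4
    have h2 : (Gd.card : ℝ) ≤ nV * ((Gd.image (fun z => ((fun i => z i + s (V z) i : Fin k → ℤ), act (V z)))).card : ℝ) := by
      exact_mod_cast h1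
    have h3 : ε / (2 * nV) * (H : ℝ) ^ k = ε / 2 * (H : ℝ) ^ k / nV := by
      field_simp
    rw [h3, div_le_iff₀ hnVr]
    linarith
  · intro r hr
    obtain ⟨z, hz, rfl⟩ := mem_image.1 hr
    refine ⟨act_pos _ (hV z hz), (act_le _).trans (by omega), fun a => ?_⟩
    have h1 := hVW z hz a
    rw [hWz] at h1
    have h2 : (fun i => z i + sh (ap (V z) (fun _ => a)) i) ∈ B := h1
    have h3 : (fun i => z i + sh (ap (V z) (fun _ => a)) i) = fun i => z i + s (V z) i + (act (V z) : ℤ) * v a i := by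
      funext i
      rw [hsh]
      show z i + ∑ j, v (ap (V z) (fun _ => a) j) i = z i + s (V z) i + (act (V z) : ℤ) * v a i
      rw [hs]
      ring
    rw [h3] at h2
    exact h2

end Pool.Agent.P8H13.RR
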