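import Mathlib
import Pool.Agent.P8H13.RR.Cnt

/-!
# One homothetic copy for a positive proportion of the shapes (helper13)
-/

set_option autoImplicit false

namespace Pool.Agent.P8H13.RR

open Finset
open Pool.Agent.P8H13.AD (box_card)

open Classical in
theorem pick (k : ℕ) (α : Type) [Fintype α] (a₀ : α) (ε : ℝ) (hε : 0 < ε) : ∃ n : ℕ, 1 ≤ n ∧
    ∃ c : ℝ, 0 < c ∧ ∀ (β : Type) (X : Finset β) (v : β → α → Fin k → ℤ) (W : ℕ),
    (∀ u ∈ X, ∀ a i, |v u a i| ≤ W) → (∀ u ∈ X, ∀ i, v u a₀ i = 0) →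
    ∀ H : ℕ, 2 * n * W ≤ H → 1 ≤ H → ∀ (y : Fin k → ℤ) (B : Finset (Fin k → ℤ)),
    B ⊆ Pool.Agent.P8H13.AD.box y H → ε * (H : ℝ) ^ k ≤ B.card →
    ∃ (x : Fin k → ℤ) (l : ℕ), x ∈ B ∧ 1 ≤ l ∧ l ≤ n ∧
      c * (X.card : ℝ) ≤ ((X.filter (fun u => ∀ a, (fun i => x i + l * v u a i) ∈ B)).card : ℝ) := by
  have : Nonempty α := ⟨a₀⟩
  obtain ⟨n, hn, c, hc, h⟩ := mszkC k α ε hε
  have hnr : (0 : ℝ) < n := by exact_mod_cast hn
  refine ⟨n, hn, c / n, by positivity, fun β X v W hv hv0 H hH hH1 y B hB hBc => ?_⟩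
  have hHr : (0 : ℝ) < H := by exact_mod_cast hH1
  have hR : ∀ u ∈ X, ∃ R : Finset ((Fin k → ℤ) × ℕ), c * (H : ℝ) ^ k ≤ R.card ∧
      ∀ r ∈ R, 1 ≤ r.2 ∧ r.2 ≤ n ∧ ∀ a, (fun i => r.1 i + r.2 * v u a i) ∈ B := fun u hu =>
    h (v u) W (hv u hu) H hH hH1 y B hB hBc
  choose! R hR1 hR2 using hR
  have hBne : B.Nonempty := by
    by_contra hcon
    rw [not_nonempty_iff_eq_empty] at hcon
    rw [hcon, card_empty, Nat.cast_zero] at hBc
    have : 0 < ε * (H : ℝ) ^ k := by positivity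
    linarith
  obtain ⟨Y, hY⟩ : ∃ Y : Finset ((Fin k → ℤ) × ℕ), Y = B ×ˢ Icc 1 n := ⟨_, rfl⟩
  have hYc : (Y.card : ℝ) ≤ (H : ℝ) ^ k * n := by
    rw [hY, card_product, Nat.card_Icc, Nat.add_sub_cancel]
    push_cast
    refine mul_le_mul_of_nonneg_right ?_ hnr.le
    have h1 := card_le_card hB
    rw [box_card] at h1
    exact_mod_cast h1
  have hYne : Y.Nonempty := by
    rw [hY]
    exact hBne.product ⟨1, mem_Icc.2 ⟨le_rfl, hn⟩⟩
  have hRY : ∀ u ∈ X, R u ⊆ Y := by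
    intro u hu r hr
    obtain ⟨h1, h2, h3⟩ := hR2 u hu r hr
    rw [hY, mem_product, mem_Icc]
    refine ⟨?_, h1, h2⟩
    have h4 := h3 a₀
    have h5 : (fun i => r.1 i + (r.2 : ℤ) * v u a₀ i) = r.1 := by
      funext i
      rw [hv0 u hu i]
      ring
    rwa [h5] at h4
  have hsum : (X.card : ℝ) * (c * (H : ℝ) ^ k) ≤ ∑ r ∈ Y, ((X.filter (fun u => r ∈ R u)).card : ℝ) := by
    have h1 : ∑ r ∈ Y, ((X.filter (fun u => r ∈ R u)).card : ℝ) = ∑ u ∈ X, ((R u).card : ℝ) := by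
      have h2 : ∀ r ∈ Y, ((X.filter (fun u => r ∈ R u)).card : ℝ) = ∑ u ∈ X, if r ∈ R u then (1 : ℝ) else 0 := by
        intro r _
        rw [← sum_filter, sum_const, nsmul_eq_mul, mul_one]
      rw [sum_congr rfl h2, sum_comm]
      refine sum_congr rfl fun u hu => ?_
      rw [← sum_filter, sum_const, nsmul_eq_mul, mul_one]
      congr 2
      ext r
      rw [mem_filter]
      exact ⟨fun h3 => h3.2, fun h3 => ⟨hRY u hu h3, h3⟩⟩
    rw [h1, ← nsmul_eq_mul]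
    exact card_nsmul_le_sum X _ _ fun u hu => hR1 u hu
  obtain ⟨r, hr, hrc⟩ : ∃ r ∈ Y, c / n * (X.card : ℝ) ≤ ((X.filter (fun u => r ∈ R u)).card : ℝ) := by
    by_contra hcon
    push Not at hcon
    have h1 : ∑ r ∈ Y, ((X.filter (fun u => r ∈ R u)).card : ℝ) < ∑ _r ∈ Y, c / n * (X.card : ℝ) :=
      sum_lt_sum_of_nonempty hYne hcon
    rw [sum_const, nsmul_eq_mul] at h1
    have h2 : (Y.card : ℝ) * (c / n * X.card) ≤ (H : ℝ) ^ k * n * (c / n * X.card) :=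
      mul_le_mul_of_nonneg_right hYc (by positivity)
    have h3 : (H : ℝ) ^ k * n * (c / n * X.card) = X.card * (c * (H : ℝ) ^ k) := by
      field_simp
    linarith
  rw [hY, mem_product, mem_Icc] at hr
  refine ⟨r.1, r.2, hr.1, hr.2.1, hr.2.2, hrc.trans ?_⟩
  rw [Nat.cast_le]
  apply card_le_card
  intro u hu
  rw [mem_filter] at hu ⊢
  exact ⟨hu.1, (hR2 u hu.1 r hu.2).2.2⟩

end Pool.Agent.P8H13.RR
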