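import Mathlib
import Pool.Agent.P8H13.RR.Pick
import Pool.Agent.P8H13.UL.Core
import Pool.Agent.N646.RG.All

/-!
# Linear families of sets of shifts with the right order of magnitude, in windows of length `λ log N` (helper13)
-/

set_option autoImplicit false

namespace Pool.Agent.P8H13.RR

open Finset Filter Topology
open Pool.Agent.P8H13.AD (dot GenPos lin dot_add)
open Pool.Agent.P8H13.UL (val Bd val_add)
open Pool.Agent.N646.RG (ev sh Afm IN Gdf sHITM2)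

/-- at least `κ₀ N / (log N) ^ (k + 1)` of the `1 ≤ n ≤ N` make all `n + a i` prime -/
def Right (κ₀ : ℝ) (N : ℕ) {k : ℕ} (a : Fin (k + 1) → ℤ) : Prop :=
  κ₀ * ((N : ℝ) / Real.log N ^ (k + 1)) ≤
    (((Icc 1 N).filter (fun n : ℕ => ∀ i, ((n : ℤ) + a i).toNat.Prime)).card : ℝ)

/-- `v` is exceptional -/
def ExcR {T k : ℕ} (M : ℕ) (κ₀ : ℝ) (N : ℕ) (e : Fin T → Fin k → ℤ) (γ : Fin T → ℤ) (v : Fin k → ℤ) : Prop :=
  (∀ p : ℕ, p.Prime → ∃ r : ℤ, ∀ g, ¬ (p : ℤ) ∣ val e γ v g + r) ∧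
    ¬ ∃ S : Finset (Fin T), M + 1 ≤ S.card ∧ ∀ f : Fin (k + 1) → Fin T, Function.Injective f →
      (∀ i, f i ∈ S) → Right κ₀ N (fun i => val e γ v (f i))

theorem conv {k : ℕ} {κ κ₀ : ℝ} (hκ : κ₀ ≤ κ) {N : ℕ} (hN : 1000 ≤ N) (F a : Fin (k + 1) → ℤ)
    (t : ℤ) (ht : 40 * |t| ≤ N) (hF : ∀ i, F i = t + a i) (h : Gdf κ N (fun i => ((1 : ℤ), F i))) :
    Right κ₀ N a := by
  unfold Gdf at h
  unfold Right
  have hlog : 0 ≤ Real.log N := Real.log_natCast_nonneg N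
  refine (mul_le_mul_of_nonneg_right hκ (by positivity)).trans (h.trans ?_)
  rw [Nat.cast_le]
  have hrange : ∀ n ∈ IN N, 1 ≤ (n : ℤ) + t ∧ (n : ℤ) + t ≤ N := by
    intro n hn
    unfold IN at hn
    have h1 := mem_Icc.1 hn
    have h2 := abs_le.1 (show |t| ≤ (N : ℤ) / 40 by omega)
    constructor
    · omega
    · omega
  apply card_le_card_of_injOn (fun n : ℕ => ((n : ℤ) + t).toNat)
  · intro n hn
    have hn' := mem_filter.1 (mem_coe.1 hn)
    obtain ⟨h1, h2⟩ := hrange n hn'.1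
    have h3 : ((((n : ℤ) + t).toNat : ℕ) : ℤ) = (n : ℤ) + t := Int.toNat_of_nonneg (by linarith)
    rw [mem_coe, mem_filter, mem_Icc]
    refine ⟨⟨?_, ?_⟩, fun i => ?_⟩
    · show 1 ≤ ((n : ℤ) + t).toNat
      omega
    · show ((n : ℤ) + t).toNat ≤ N
      omega
    show ((((((n : ℤ) + t).toNat : ℕ) : ℤ) + a i).toNat).Prime
    rw [h3]
    have h4 : (n : ℤ) + t + a i = 1 * n + F i := by
      rw [hF i]
      ring
    rw [h4]
    exact hn'.2 i
  · intro n hn n' hn' h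
    obtain ⟨h1, -⟩ := hrange n (mem_filter.1 (mem_coe.1 hn)).1
    obtain ⟨h2, -⟩ := hrange n' (mem_filter.1 (mem_coe.1 hn')).1
    have h3 : ((n : ℤ) + t).toNat = ((n' : ℤ) + t).toNat := h
    omega

/-- the shape -/
def shp {T K k : ℕ} (Q : ℕ) (w : (Fin (k + 1) → Fin T) × Fin (k + 1) → Fin k → ℤ) (u : Fin T × Fin K → ℕ)
    (z : Option ((Fin (k + 1) → Fin T) × (Fin (k + 1) → Fin K))) (i : Fin k) : ℤ :=
  match z with
  | none => 0
  | some z => Q * ∑ a, (u (z.1 a, z.2 a) : ℤ) * w (z.1, a) i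

open Classical in
theorem core (k T M : ℕ) (hT : 1 ≤ T) (hTM : (18 / 5 : ℝ) * M < T) (e : Fin T → Fin k → ℤ)
    (he : GenPos e) : ∃ B : ℕ, 1 ≤ B ∧ ∀ lam ε : ℝ, 0 < lam → 0 < ε → ∃ κ₀ : ℝ, 0 < κ₀ ∧ ∀ᶠ N : ℕ in atTop,
    ∀ (γ : Fin T → ℤ) (y : Fin k → ℤ) (H : ℕ), lam * Real.log N ≤ H → B * H ≤ N →
      (((Pool.Agent.P8H13.AD.box y H).filter (fun v => Bd B N e γ v ∧ ExcR M κ₀ N e γ v)).card : ℝ) ≤
        ε * (H : ℝ) ^ k := by
  obtain ⟨K, hK, hHIT⟩ := sHITM2 k T M hT hTM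
  obtain ⟨P, hP, hlin⟩ := lin e he
  have hP1 : 1 ≤ P := hP
  -- the solutions for the unit vectors
  have hsv : ∀ z : (Fin (k + 1) → Fin T) × Fin (k + 1), ∃ (s : ℤ) (w : Fin k → ℤ),
      Function.Injective z.1 → ∀ b, s + dot (e (z.1 b)) w = P * (if b = z.2 then 1 else 0) := by
    intro z
    by_cases hz : Function.Injective z.1
    · obtain ⟨s, w, h⟩ := hlin z.1 hz (fun b => if b = z.2 then 1 else 0)
      exact ⟨s, w, fun _ => h⟩
    · exact ⟨0, 0, fun h => absurd h hz⟩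
  choose s w hsw using hsv
  obtain ⟨W0, hW0⟩ : ∃ W0 : ℕ, W0 = ∑ z, ∑ i, (w z i).natAbs := ⟨_, rfl⟩
  have hW0b : ∀ z i, |w z i| ≤ W0 := by
    intro z i
    have h1 : (w z i).natAbs ≤ ∑ i, (w z i).natAbs :=
      single_le_sum (f := fun i => (w z i).natAbs) (fun _ _ => Nat.zero_le _) (mem_univ i)
    have h2 : ∑ i, (w z i).natAbs ≤ W0 := by
      rw [hW0]
      exact single_le_sum (f := fun z => ∑ i, (w z i).natAbs) (fun _ _ => Nat.zero_le _) (mem_univ z)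
    rw [← Int.natCast_natAbs]
    exact_mod_cast h1.trans h2
  obtain ⟨S0, hS0⟩ : ∃ S0 : ℕ, S0 = ∑ z, (s z).natAbs := ⟨_, rfl⟩
  have hS0b : ∀ z, |s z| ≤ S0 := by
    intro z
    have h1 : (s z).natAbs ≤ S0 := by
      rw [hS0]
      exact single_le_sum (f := fun z => (s z).natAbs) (fun _ _ => Nat.zero_le _) (mem_univ z)
    rw [← Int.natCast_natAbs]
    exact_mod_cast h1
  obtain ⟨Q, hQ⟩ : ∃ Q : ℕ, Q = (T * K).factorial := ⟨_, rfl⟩
  have hQ1 : 1 ≤ Q := by rw [hQ]; exact Nat.factorial_pos _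
  obtain ⟨B, hB⟩ : ∃ B : ℕ, B = 80 * (1 + P + S0) := ⟨_, rfl⟩
  have hB1 : 1 ≤ B := by rw [hB]; omega
  refine ⟨B, hB1, fun lam ε hlam hε => ?_⟩
  obtain ⟨nG, hnG⟩ : ∃ nG : ℕ, nG = Fintype.card (Finset (Fin (k + 1) → Fin T)) := ⟨_, rfl⟩
  have hnG0 : (0 : ℝ) < nG := by rw [hnG]; exact_mod_cast Fintype.card_pos
  obtain ⟨n, hn, c, hc, hpick⟩ := pick k (Option ((Fin (k + 1) → Fin T) × (Fin (k + 1) → Fin K))) none (ε / nG)
    (by positivity)
  obtain ⟨C, hC⟩ : ∃ C : ℕ, C = 2 * n * (Q * (k + 1) * (W0 + 1)) := ⟨_, rfl⟩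
  have hC1 : 1 ≤ C := by
    rw [hC]
    have : 0 < n * (Q * (k + 1) * (W0 + 1)) := by positivity
    nlinarith
  have hCr : (0 : ℝ) < C := by exact_mod_cast hC1
  have hCn : n * Q * (k + 1) ≤ C := by
    rw [hC]
    have h1 : n * Q * (k + 1) * 1 ≤ n * Q * (k + 1) * (2 * (W0 + 1)) := Nat.mul_le_mul_left _ (by omega)
    calc n * Q * (k + 1) = n * Q * (k + 1) * 1 := by ring
      _ ≤ _ := h1
      _ = _ := by ring
  have hCn' : n * Q ≤ C := by
    refine le_trans ?_ hCn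
    have : n * Q * 1 ≤ n * Q * (k + 1) := Nat.mul_le_mul_left _ (by omega)
    omega
  have hκex : ∀ l : ℕ, 1 ≤ l → ∃ κ : ℝ, 0 < κ ∧ ∀ᶠ N : ℕ in atTop, ∀ T₁ : ℕ, lam / (2 * C) * Real.log N ≤ T₁ →
      2 * (P * Q * l * T₁) ≤ N →
      ∀ f : Fin T × Fin K → ℤ × ℤ, (∀ x, ∀ t ≤ T₁, Afm N (sh (f x) (P * Q * l * t))) →
      (∀ p : ℕ, p.Prime → p ≤ T * K → p ∣ P * Q * l ∧ ∃ r : ℤ, ∀ x, ¬ (p : ℤ) ∣ (f x).1 * r + (f x).2) →
      (((Fintype.piFinset (fun _ : Fin T × Fin K => range T₁)).filter (fun H =>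
        ¬ ∃ (S : Finset (Fin T)) (σ : Fin T → Fin K), M + 1 ≤ S.card ∧
          ∀ g : Fin (k + 1) → Fin T, Function.Injective g → (∀ i, g i ∈ S) →
            Gdf κ N (fun i => sh (f (g i, σ (g i))) (P * Q * l * H (g i, σ (g i)))))).card : ℝ) ≤
        c / 2 * (T₁ : ℝ) ^ (T * K) := by
    intro l hl
    obtain ⟨κ, hκ, hev⟩ := hHIT (P * Q * l) (by
      have : 0 < P * Q * l := by positivity
      omega) (lam / (2 * C)) (c / 2) (by positivity) (by positivity)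
    exact ⟨κ, hκ, hev⟩
  choose! κ hκ0 hκev using hκex
  obtain ⟨l₀, hl₀, hl₀m⟩ := exists_min_image (Icc 1 n) κ ⟨1, mem_Icc.2 ⟨le_rfl, hn⟩⟩
  refine ⟨κ l₀, hκ0 l₀ (mem_Icc.1 hl₀).1, ?_⟩
  have hevall : ∀ᶠ N : ℕ in atTop, ∀ l ∈ Icc 1 n, ∀ T₁ : ℕ, lam / (2 * C) * Real.log N ≤ T₁ →
      2 * (P * Q * l * T₁) ≤ N →
      ∀ f : Fin T × Fin K → ℤ × ℤ, (∀ x, ∀ t ≤ T₁, Afm N (sh (f x) (P * Q * l * t))) →
      (∀ p : ℕ, p.Prime → p ≤ T * K → p ∣ P * Q * l ∧ ∃ r : ℤ, ∀ x, ¬ (p : ℤ) ∣ (f x).1 * r + (f x).2) →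
      (((Fintype.piFinset (fun _ : Fin T × Fin K => range T₁)).filter (fun H =>
        ¬ ∃ (S : Finset (Fin T)) (σ : Fin T → Fin K), M + 1 ≤ S.card ∧
          ∀ g : Fin (k + 1) → Fin T, Function.Injective g → (∀ i, g i ∈ S) →
            Gdf (κ l) N (fun i => sh (f (g i, σ (g i))) (P * Q * l * H (g i, σ (g i)))))).card : ℝ) ≤
        c / 2 * (T₁ : ℝ) ^ (T * K) :=
    (Filter.eventually_all_finset _).2 fun l hl => hκev l (mem_Icc.1 hl).1
  have hlogt : Tendsto (fun N : ℕ => lam * Real.log (N : ℝ)) atTop atTop :=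
    (Real.tendsto_log_atTop.comp tendsto_natCast_atTop_atTop).const_mul_atTop hlam
  filter_upwards [hevall, eventually_ge_atTop 1000, hlogt.eventually_ge_atTop (2 * C + 1)] with
    N hev hN hNlog γ y H hH1 hH2
  by_contra hcon
  rw [not_le] at hcon
  obtain ⟨E, hE⟩ : ∃ E, E = (Pool.Agent.P8H13.AD.box y H).filter
    (fun v => Bd B N e γ v ∧ ExcR M (κ l₀) N e γ v) := ⟨_, rfl⟩
  rw [← hE] at hcon
  -- the popular colour
  obtain ⟨col, hcol⟩ : ∃ col : (Fin k → ℤ) → Finset (Fin (k + 1) → Fin T), col = fun v =>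
    univ.filter (fun f => Right (κ l₀) N (fun i => val e γ v (f i))) := ⟨_, rfl⟩
  obtain ⟨G, hG⟩ : ∃ G, ε / nG * (H : ℝ) ^ k ≤ ((E.filter (fun v => col v = G)).card : ℝ) := by
    by_contra hcon2
    push Not at hcon2
    have h1 : (E.card : ℝ) = ∑ G, ((E.filter (fun v => col v = G)).card : ℝ) := by
      rw [← Nat.cast_sum]
      congr 1
      exact card_eq_sum_card_fiberwise (fun _ _ => mem_coe.2 (mem_univ _))
    have h2 : ∑ G, ((E.filter (fun v => col v = G)).card : ℝ) ≤ ∑ _G : Finset (Fin (k + 1) → Fin T),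
        ε / nG * (H : ℝ) ^ k := sum_le_sum fun G _ => (hcon2 G).le
    rw [sum_const, card_univ, nsmul_eq_mul, ← hnG] at h2
    have h3 : (nG : ℝ) * (ε / nG * (H : ℝ) ^ k) = ε * (H : ℝ) ^ k := by field_simp
    linarith
  obtain ⟨E', hE'⟩ : ∃ E', E' = E.filter (fun v => col v = G) := ⟨_, rfl⟩
  rw [← hE'] at hG
  have hE'b : E' ⊆ Pool.Agent.P8H13.AD.box y H := by
    rw [hE', hE]
    exact (filter_subset _ _).trans (filter_subset _ _)
  have hE'm : ∀ v ∈ E', Bd B N e γ v ∧ ExcR M (κ l₀) N e γ v ∧ col v = G := by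
    intro v hv
    rw [hE', mem_filter, hE, mem_filter] at hv
    exact ⟨hv.1.2.1, hv.1.2.2, hv.2⟩
  -- the number of values
  have hHbig : 2 * C + 1 ≤ H := by
    have : ((2 * C + 1 : ℕ) : ℝ) ≤ H := by
      push_cast
      exact hNlog.trans hH1
    exact_mod_cast this
  obtain ⟨U, hU⟩ : ∃ U : ℕ, U = H / C := ⟨_, rfl⟩
  have hUC : U * C ≤ H := by rw [hU]; exact Nat.div_mul_le_self H C
  have hU1 : 2 ≤ U := by
    rw [hU, Nat.le_div_iff_mul_le (by omega)]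
    omega
  have hUlog : lam / (2 * C) * Real.log N ≤ U := by
    have h1 : H < C * (U + 1) := by rw [hU]; exact Nat.lt_mul_div_succ H (by omega)
    have h2 : (H : ℝ) < C * (U + 1) := by exact_mod_cast h1
    have h3 : (2 : ℝ) ≤ U := by exact_mod_cast hU1
    rw [div_mul_eq_mul_div, div_le_iff₀ (by positivity)]
    nlinarith
  obtain ⟨x, l, hxE, hl1, hln, hxc⟩ := hpick (Fin T × Fin K → ℕ) (Fintype.piFinset (fun _ : Fin T × Fin K => range U))
    (shp Q w) (Q * (k + 1) * (W0 + 1) * U) (by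
      intro u hu a i
      have hu' : ∀ z, (u z : ℤ) ≤ U := by
        intro z
        have := mem_range.1 (Fintype.mem_piFinset.1 hu z)
        exact_mod_cast this.le
      rcases a with _ | z
      · show |(0 : ℤ)| ≤ _
        rw [abs_zero]
        positivity
      · show |(Q : ℤ) * ∑ a, (u (z.1 a, z.2 a) : ℤ) * w (z.1, a) i| ≤ _
        rw [abs_mul, Nat.abs_cast]
        have h1 : |∑ a, (u (z.1 a, z.2 a) : ℤ) * w (z.1, a) i| ≤ ∑ _a : Fin (k + 1), (U : ℤ) * W0 := by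
          refine (abs_sum_le_sum_abs _ _).trans (sum_le_sum fun a _ => ?_)
          rw [abs_mul, Nat.abs_cast]
          exact mul_le_mul (hu' _) (hW0b _ _) (abs_nonneg _) (by positivity)
        rw [sum_const, card_univ, Fintype.card_fin, nsmul_eq_mul] at h1
        refine (mul_le_mul_of_nonneg_left h1 (by positivity)).trans ?_
        push_cast
        have : (0 : ℤ) ≤ Q * (k + 1) * U := by positivity
        nlinarith)
    (by
      intro u _ i
      rfl) H (by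
      calc 2 * n * (Q * (k + 1) * (W0 + 1) * U) = U * C := by rw [hC]; ring
        _ ≤ H := hUC) (by omega) y E' hE'b hG
  obtain ⟨hxB, ⟨hxadm, hxS⟩, hxG⟩ := hE'm x hxE
  have hBz : (0 : ℤ) < B := by exact_mod_cast hB1
  have hNz : (0 : ℤ) ≤ N := Nat.cast_nonneg _
  have hPQ : P * Q * l * U ≤ P * H := by
    calc P * Q * l * U = P * (U * (l * Q)) := by ring
      _ ≤ P * (U * C) := Nat.mul_le_mul_left _ (Nat.mul_le_mul_left _
          ((Nat.mul_le_mul_right _ hln).trans hCn'))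
      _ ≤ P * H := Nat.mul_le_mul_left _ hUC
  have hPH : 80 * (P * H) ≤ N := by
    refine le_trans ?_ hH2
    rw [hB]
    have : 0 ≤ H := Nat.zero_le _
    nlinarith
  have hSH : 80 * (S0 * H) ≤ N := by
    refine le_trans ?_ hH2
    rw [hB]
    have : 0 ≤ H := Nat.zero_le _
    nlinarith
  have hval : ∀ g, 0 ≤ val e γ x g ∧ 80 * val e γ x g ≤ N := by
    intro g
    obtain ⟨h1, h2⟩ := hxB g
    refine ⟨h1, le_trans ?_ h2⟩
    refine mul_le_mul_of_nonneg_right ?_ h1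
    rw [hB]
    push_cast
    have : (0 : ℤ) ≤ P + S0 := by positivity
    linarith
  have hbad := hev l (mem_Icc.2 ⟨hl1, hln⟩) U hUlog (by omega) (fun z => ((1 : ℤ), val e γ x z.1))
    (by
      intro z t ht
      obtain ⟨h1, h2⟩ := hval z.1
      have h3 : P * Q * l * t ≤ P * H := (Nat.mul_le_mul_left _ ht).trans hPQ
      have h4 : 80 * ((P * Q * l * t : ℕ) : ℤ) ≤ N := by exact_mod_cast (Nat.mul_le_mul_left 80 h3).trans hPH
      have h5 : (0 : ℤ) ≤ ((P * Q * l * t : ℕ) : ℤ) := Nat.cast_nonneg _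
      refine ⟨Or.inl rfl, ?_, fun t' ht1 ht2 => ?_⟩
      · show 10 * |val e γ x z.1 + ((P * Q * l * t : ℕ) : ℤ)| ≤ 9 * N
        rw [abs_of_nonneg (by linarith)]
        linarith
      · show (N : ℝ) / 20 ≤ ((1 : ℤ) : ℝ) * t' + ((val e γ x z.1 + ((P * Q * l * t : ℕ) : ℤ) : ℤ) : ℝ)
        have h6 : (0 : ℝ) ≤ ((val e γ x z.1 + ((P * Q * l * t : ℕ) : ℤ) : ℤ) : ℝ) := by
          exact_mod_cast (by linarith : (0 : ℤ) ≤ val e γ x z.1 + ((P * Q * l * t : ℕ) : ℤ))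
        have h7 : (0 : ℝ) ≤ N := Nat.cast_nonneg _
        rw [Int.cast_one, one_mul]
        linarith)
    (by
      intro p hp hpT
      refine ⟨?_, ?_⟩
      · have hpQ : p ∣ Q := by
          rw [hQ]
          exact Nat.dvd_factorial hp.pos hpT
        exact Dvd.dvd.mul_right (Dvd.dvd.mul_left hpQ P) l
      · obtain ⟨r, hr⟩ := hxadm p hp
        refine ⟨r, fun z h => hr z.1 ?_⟩
        have h0 : (p : ℤ) ∣ 1 * r + val e γ x z.1 := h
        have e1 : val e γ x z.1 + r = 1 * r + val e γ x z.1 := by ring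
        rw [e1]
        exact h0)
  -- a good vector of values
  have hXc : ((Fintype.piFinset (fun _ : Fin T × Fin K => range U)).card : ℝ) = (U : ℝ) ^ (T * K) := by
    rw [Fintype.card_piFinset, prod_const, card_range, card_univ, Fintype.card_prod, Fintype.card_fin,
      Fintype.card_fin]
    push_cast
    rfl
  rw [hXc] at hxc
  have hUr : (0 : ℝ) < (U : ℝ) ^ (T * K) := by
    have : (0 : ℝ) < U := by exact_mod_cast (by omega : 0 < U)
    positivity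
  obtain ⟨Bs, hBs, hBsc⟩ : ∃ Bs : Finset (Fin T × Fin K → ℕ), (∀ u ∈ Fintype.piFinset (fun _ : Fin T × Fin K => range U),
      u ∉ Bs → ∃ (S : Finset (Fin T)) (σ : Fin T → Fin K), M + 1 ≤ S.card ∧
        ∀ g : Fin (k + 1) → Fin T, Function.Injective g → (∀ i, g i ∈ S) →
          Gdf (κ l) N (fun i => ((1 : ℤ), val e γ x (g i) + ((P * Q * l * u (g i, σ (g i)) : ℕ) : ℤ)))) ∧
      (Bs.card : ℝ) ≤ c / 2 * (U : ℝ) ^ (T * K) := by
    refine ⟨_, fun u hu hub => ?_, hbad⟩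
    by_contra hno
    exact hub (mem_filter.2 ⟨hu, hno⟩)
  obtain ⟨Gs, hGs, hGsc⟩ : ∃ Gs : Finset (Fin T × Fin K → ℕ), (∀ u ∈ Gs,
      u ∈ Fintype.piFinset (fun _ : Fin T × Fin K => range U) ∧ ∀ a, (fun i => x i + l * shp Q w u a i) ∈ E') ∧
      c * (U : ℝ) ^ (T * K) ≤ (Gs.card : ℝ) := ⟨_, fun u hu => mem_filter.1 hu, hxc⟩
  obtain ⟨u, hu1, hu2⟩ : ∃ u ∈ Gs, u ∉ Bs := by
    by_contra hcon3
    push Not at hcon3
    have h1 : (Gs.card : ℝ) ≤ Bs.card := by exact_mod_cast card_le_card hcon3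
    have h3 := mul_pos hc hUr
    linarith
  obtain ⟨hu3, hu4⟩ := hGs u hu1
  obtain ⟨S, σ, hSc, hS⟩ := hBs u hu3 hu2
  -- an injective tuple in `S` which is not good
  push Not at hxS
  obtain ⟨f, hf, hfS, hfR⟩ := hxS S hSc
  have hfG : f ∉ G := by
    intro h
    rw [← hxG, hcol] at h
    exact hfR (mem_filter.1 h).2
  apply hfG
  obtain ⟨-, -, hvG⟩ := hE'm _ (hu4 (some (f, fun a => σ (f a))))
  rw [← hvG, hcol, mem_filter]
  refine ⟨mem_univ _, ?_⟩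
  obtain ⟨t, ht⟩ : ∃ t : ℤ, t = l * (Q * ∑ a, (u (f a, σ (f a)) : ℤ) * s (f, a)) := ⟨_, rfl⟩
  have hu' : ∀ z, (u z : ℤ) ≤ U := by
    intro z
    have := mem_range.1 (Fintype.mem_piFinset.1 hu3 z)
    exact_mod_cast this.le
  have htb : 40 * |t| ≤ N := by
    have h1 : |∑ a, (u (f a, σ (f a)) : ℤ) * s (f, a)| ≤ ∑ _a : Fin (k + 1), (U : ℤ) * S0 := by
      refine (abs_sum_le_sum_abs _ _).trans (sum_le_sum fun a _ => ?_)
      rw [abs_mul, Nat.abs_cast]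
      exact mul_le_mul (hu' _) (hS0b _) (abs_nonneg _) (by positivity)
    rw [sum_const, card_univ, Fintype.card_fin, nsmul_eq_mul] at h1
    have h2 : |t| ≤ ((S0 * H : ℕ) : ℤ) := by
      rw [ht, abs_mul, abs_mul, Nat.abs_cast, Nat.abs_cast]
      have h3 : (l : ℤ) * (Q * |∑ a, (u (f a, σ (f a)) : ℤ) * s (f, a)|) ≤
          l * (Q * (((k + 1 : ℕ) : ℤ) * (U * S0))) :=
        mul_le_mul_of_nonneg_left (mul_le_mul_of_nonneg_left h1 (by positivity)) (by positivity)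
      refine h3.trans ?_
      have h4 : l * (Q * ((k + 1) * (U * S0))) ≤ S0 * H := by
        calc l * (Q * ((k + 1) * (U * S0))) = (l * Q * (k + 1)) * U * S0 := by ring
          _ ≤ (n * Q * (k + 1)) * U * S0 := by gcongr
          _ ≤ C * U * S0 := by gcongr
          _ = S0 * (U * C) := by ring
          _ ≤ S0 * H := Nat.mul_le_mul_left _ hUC
      exact_mod_cast h4
    have h3 : 80 * ((S0 * H : ℕ) : ℤ) ≤ N := by exact_mod_cast hSH
    have h4 : 0 ≤ |t| := abs_nonneg t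
    linarith
  refine conv (hl₀m l (mem_Icc.2 ⟨hl1, hln⟩)) hN
    (fun i => val e γ x (f i) + ((P * Q * l * u (f i, σ (f i)) : ℕ) : ℤ)) _ t htb ?_ (hS f hf hfS)
  intro b
  have h1 : val e γ (fun i => x i + l * shp Q w u (some (f, fun a => σ (f a))) i) (f b) =
      val e γ x (f b) + l * dot (e (f b)) (shp Q w u (some (f, fun a => σ (f a)))) := val_add e γ x _ l (f b)
  have h2 : dot (e (f b)) (shp Q w u (some (f, fun a => σ (f a)))) =
      Q * ∑ a, (u (f a, σ (f a)) : ℤ) * dot (e (f b)) (w (f, a)) := by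
    unfold Pool.Agent.P8H13.AD.dot
    show ∑ i, e (f b) i * (Q * ∑ a, (u (f a, σ (f a)) : ℤ) * w (f, a) i) = _
    rw [mul_sum]
    simp_rw [mul_sum]
    rw [sum_comm]
    refine sum_congr rfl fun a _ => ?_
    refine sum_congr rfl fun i _ => ?_
    ring
  have h3 : ∀ a, dot (e (f b)) (w (f, a)) = P * (if b = a then 1 else 0) - s (f, a) := by
    intro a
    have := hsw (f, a) hf b
    linarith
  have h4 : ∑ a, (u (f a, σ (f a)) : ℤ) * dot (e (f b)) (w (f, a)) =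
      P * u (f b, σ (f b)) - ∑ a, (u (f a, σ (f a)) : ℤ) * s (f, a) := by
    simp_rw [h3]
    have h5 : ∀ a, (u (f a, σ (f a)) : ℤ) * (P * (if b = a then 1 else 0) - s (f, a)) =
        (if b = a then (u (f a, σ (f a)) : ℤ) * P else 0) - (u (f a, σ (f a)) : ℤ) * s (f, a) := by
      intro a
      split_ifs <;> ring
    simp_rw [h5]
    rw [sum_sub_distrib, sum_ite_eq univ b, if_pos (mem_univ b)]
    ring
  rw [h1, h2, h4, ht]
  push_cast
  ring

end Pool.Agent.P8H13.RR
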