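import Mathlib
import Pool.Agent.P8H13.RR.Avg

/-!
# Few members of a linear family of sets of shifts have a large singular series (helper13)
-/

set_option autoImplicit false

namespace Pool.Agent.P8H13.RR

open Finset Filter Topology
open Pool.Agent.N647.RQSS (rr hh one_le_rr one_le_hh prs CT_tuple)
open Pool.Agent.H387R2.Uni (CT)
open Pool.Agent.P8H13.AD (dot GenPos lin dot_add through box_card)
open Pool.Agent.P8H13.UL (val val_add)

open Classical in
/-- counting along a coordinate -/
theorem along {k : ℕ} (y : Fin k → ℤ) (H : ℕ) (i : Fin k) (R : (Fin k → ℤ) → Prop) (N₁ : ℝ)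
    (h : ∀ v ∈ Pool.Agent.P8H13.AD.box y H,
      (((Ioc (y i) (y i + H)).filter (fun t : ℤ => R (Function.update v i t))).card : ℝ) ≤ N₁) :
    (((Pool.Agent.P8H13.AD.box y H).filter R).card : ℝ) * H ≤ N₁ * (H : ℝ) ^ k := by
  obtain ⟨X, hX⟩ : ∃ X, X = Pool.Agent.P8H13.AD.box y H := ⟨_, rfl⟩
  rw [← hX]
  have hmem : ∀ v, v ∈ X ↔ ∀ j, v j ∈ Ioc (y j) (y j + H) := by
    intro v
    rw [hX]
    unfold Pool.Agent.P8H13.AD.box
    exact Fintype.mem_piFinset
  have h1 : (X.filter R).card * H ≤ ∑ v ∈ X, ((Ioc (y i) (y i + H)).filter (fun t : ℤ => R (Function.update v i t))).card := by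
    rw [← card_sigma]
    have e : (X.filter R).card * H = ((X.filter R) ×ˢ (Ioc (y i) (y i + H))).card := by
      rw [card_product, Int.card_Ioc]
      congr 1
      omega
    rw [e]
    apply card_le_card_of_injOn (fun z : (Fin k → ℤ) × ℤ => (⟨Function.update z.1 i z.2, z.1 i⟩ : Σ _ : (Fin k → ℤ), ℤ))
    · rintro ⟨v, t⟩ hz
      rw [mem_coe, mem_product, mem_filter, hmem] at hz
      obtain ⟨⟨hv, hR⟩, ht⟩ := hz
      dsimp only at hv hR ht
      rw [mem_coe, mem_sigma, hmem, mem_filter]
      refine ⟨fun j => ?_, hv i, ?_⟩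
      · show Function.update v i t j ∈ Ioc (y j) (y j + H)
        by_cases hj : j = i
        · subst hj
          rw [Function.update_self]
          exact ht
        · rw [Function.update_of_ne hj]
          exact hv j
      · show R (Function.update (Function.update v i t) i (v i))
        rw [Function.update_idem, Function.update_eq_self]
        exact hR
    · rintro ⟨v, t⟩ _ ⟨v', t'⟩ _ hz
      have hz1 : Function.update v i t = Function.update v' i t' := congrArg Sigma.fst hz
      have hz2 : v i = v' i := eq_of_heq (Sigma.mk.inj hz).2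
      have ht : t = t' := by
        have := congrFun hz1 i
        rwa [Function.update_self, Function.update_self] at this
      have hv : v = v' := by
        have h2 : Function.update (Function.update v i t) i (v i) = Function.update (Function.update v' i t') i (v' i) := by
          rw [hz1, hz2]
        rwa [Function.update_idem, Function.update_eq_self, Function.update_idem, Function.update_eq_self] at h2
      rw [hv, ht]
  have h2 : ((X.filter R).card : ℝ) * H ≤
      ∑ v ∈ X, (((Ioc (y i) (y i + H)).filter (fun t : ℤ => R (Function.update v i t))).card : ℝ) := by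
    exact_mod_cast h1
  refine h2.trans ((sum_le_sum fun v hv => h v (by rw [← hX]; exact hv)).trans (le_of_eq ?_))
  rw [sum_const, nsmul_eq_mul, hX, box_card]
  push_cast
  ring

theorem ne_coord {T k : ℕ} (hk : 1 ≤ k) (hT : k + 1 ≤ T) (e : Fin T → Fin k → ℤ) (he : GenPos e) (g h : Fin T)
    (hgh : g ≠ h) : ∃ i, e g i - e h i ≠ 0 := by
  classical
  by_contra hcon
  push Not at hcon
  obtain ⟨P, hP, hlin⟩ := lin e he
  obtain ⟨f, a, a', hf, hfa, hfa'⟩ := through hk hT g h hgh
  obtain ⟨s, v, hv⟩ := hlin f hf (fun b => if b = a then 1 else 0)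
  have haa : a' ≠ a := by
    intro h1
    apply hgh
    rw [← hfa, ← hfa', h1]
  have h1 := hv a
  have h2 := hv a'
  rw [if_pos rfl, hfa] at h1
  rw [if_neg haa, hfa'] at h2
  have h3 : dot (e g) v = dot (e h) v := by
    unfold Pool.Agent.P8H13.AD.dot
    refine sum_congr rfl fun i _ => ?_
    have := hcon i
    have h4 : e g i = e h i := by linarith
    rw [h4]
  have h4 : (P : ℤ) = 0 := by
    rw [h3] at h1
    linarith
  have h5 : P = 0 := by exact_mod_cast h4
  omega

theorem val_update {T k : ℕ} (e : Fin T → Fin k → ℤ) (γ : Fin T → ℤ) (v : Fin k → ℤ) (i : Fin k) (t : ℤ) (g : Fin T) :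
    val e γ (Function.update v i t) g = val e γ (Function.update v i 0) g + e g i * t := by
  classical
  have h1 : Function.update v i t = fun j => (Function.update v i 0) j + t * (if j = i then 1 else 0) := by
    funext j
    by_cases hj : j = i
    · subst hj
      rw [Function.update_self, Function.update_self, if_pos rfl]
      ring
    · rw [Function.update_of_ne hj, Function.update_of_ne hj, if_neg hj]
      ring
  rw [h1, val_add]
  have h2 : dot (e g) (fun j => if j = i then 1 else 0) = e g i := by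
    unfold Pool.Agent.P8H13.AD.dot
    simp
  rw [h2]
  ring

open Classical in
/-- few coincidences -/
theorem coinc {T k : ℕ} (hk : 1 ≤ k) (hT : k + 1 ≤ T) (e : Fin T → Fin k → ℤ) (he : GenPos e) (δ : ℝ) (hδ : 0 < δ) :
    ∃ H₀ : ℕ, ∀ H : ℕ, H₀ ≤ H → ∀ (γ : Fin T → ℤ) (y : Fin k → ℤ),
      (((Pool.Agent.P8H13.AD.box y H).filter (fun v => ¬ Function.Injective (val e γ v))).card : ℝ) ≤
        δ * (H : ℝ) ^ k := by
  refine ⟨⌈(T * T : ℕ) / δ⌉₊ + 1, fun H hH γ y => ?_⟩
  have hHr : (0 : ℝ) < H := by exact_mod_cast (by omega : 0 < H)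
  have hHδ : ((T * T : ℕ) : ℝ) ≤ δ * H := by
    have h1 : ((T * T : ℕ) : ℝ) / δ ≤ H := (Nat.le_ceil _).trans (by exact_mod_cast (by omega))
    rw [div_le_iff₀ hδ] at h1
    linarith
  obtain ⟨Q, hQ⟩ : ∃ Q : Fin T × Fin T → (Fin k → ℤ) → Prop, ∀ z v, Q z v ↔
      (z.1 ≠ z.2 ∧ val e γ v z.1 = val e γ v z.2) := ⟨_, fun _ _ => Iff.rfl⟩
  have hsub : (Pool.Agent.P8H13.AD.box y H).filter (fun v => ¬ Function.Injective (val e γ v)) ⊆
      (univ : Finset (Fin T × Fin T)).biUnion (fun z => (Pool.Agent.P8H13.AD.box y H).filter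
        (fun v => Q z v)) := by
    intro v hv
    obtain ⟨hv1, hv2⟩ := mem_filter.1 hv
    unfold Function.Injective at hv2
    push Not at hv2
    obtain ⟨g, h, hgh, hne⟩ := hv2
    rw [mem_biUnion]
    exact ⟨(g, h), mem_univ _, mem_filter.2 ⟨hv1, (hQ _ _).2 ⟨hne, hgh⟩⟩⟩
  have hone : ∀ z : Fin T × Fin T, (((Pool.Agent.P8H13.AD.box y H).filter
      (fun v => Q z v)).card : ℝ) ≤ (H : ℝ) ^ k / H := by
    intro z
    by_cases hz : z.1 = z.2
    · have : (Pool.Agent.P8H13.AD.box y H).filter (fun v => Q z v) = ∅ :=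
        filter_eq_empty_iff.2 fun v _ h => ((hQ z v).1 h).1 hz
      rw [this, card_empty, Nat.cast_zero]
      positivity
    · obtain ⟨i, hi⟩ := ne_coord hk hT e he z.1 z.2 hz
      rw [le_div_iff₀ hHr]
      have h0 := along y H i (fun v => Q z v) 1 (by
        intro v _
        have : ((Ioc (y i) (y i + H)).filter (fun t : ℤ => Q z (Function.update v i t))).card ≤ 1 := by
          rw [card_le_one]
          intro t ht t' ht'
          have h1 := ((hQ _ _).1 (mem_filter.1 ht).2).2
          have h2 := ((hQ _ _).1 (mem_filter.1 ht').2).2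
          rw [val_update, val_update e γ v i t z.2] at h1
          rw [val_update, val_update e γ v i t' z.2] at h2
          have h3 : (e z.1 i - e z.2 i) * (t - t') = 0 := by linear_combination h1 - h2
          rcases mul_eq_zero.1 h3 with h4 | h4
          · exact absurd h4 hi
          · linarith
        exact_mod_cast this)
      rwa [one_mul] at h0
  have h1 : (((Pool.Agent.P8H13.AD.box y H).filter (fun v => ¬ Function.Injective (val e γ v))).card : ℝ) ≤
      ∑ z : Fin T × Fin T, (((Pool.Agent.P8H13.AD.box y H).filter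
        (fun v => Q z v)).card : ℝ) := by
    exact_mod_cast (card_le_card hsub).trans card_biUnion_le
  refine h1.trans ((sum_le_sum fun z _ => hone z).trans ?_)
  rw [sum_const, card_univ, Fintype.card_prod, Fintype.card_fin, nsmul_eq_mul, ← mul_div_assoc,
    div_le_iff₀ hHr]
  have h2 : (0 : ℝ) ≤ (H : ℝ) ^ k := by positivity
  calc ((T * T : ℕ) : ℝ) * (H : ℝ) ^ k ≤ (δ * H) * (H : ℝ) ^ k := mul_le_mul_of_nonneg_right hHδ h2
    _ = _ := by ring

open Classical in
/-- few sets of shifts with a large singular series -/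
theorem few_lin {T k : ℕ} (hk : 1 ≤ k) (hT : k + 1 ≤ T) (e : Fin T → Fin k → ℤ) (he : GenPos e) (lam δ : ℝ)
    (hlam : 0 < lam) (hδ : 0 < δ) : ∃ A₀ : ℝ, 0 < A₀ ∧ ∀ᶠ x : ℕ in atTop, ∀ (γ : Fin T → ℤ) (y : Fin k → ℤ) (H : ℕ),
      lam * Real.log x ≤ H →
      (((Pool.Agent.P8H13.AD.box y H).filter (fun v => (∀ g, 0 ≤ val e γ v g ∧ val e γ v g ≤ x) ∧
        Function.Injective (val e γ v) ∧ ∃ f : Fin (k + 1) → Fin T, Function.Injective f ∧
          A₀ < CT (univ.image (fun a => (val e γ v (f a)).toNat)))).card : ℝ) ≤ δ * (H : ℝ) ^ k := by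
  obtain ⟨C, hC, hcell⟩ := cell_lin lam hlam
  obtain ⟨S, hS⟩ : ∃ S : ℕ, S = ∑ z : Fin T × Fin T, ∑ i, (e z.1 i - e z.2 i).natAbs := ⟨_, rfl⟩
  have hSb : ∀ (g h : Fin T) i, (e g i - e h i).natAbs ≤ S := by
    intro g h i
    rw [hS]
    exact (single_le_sum (f := fun i => (e g i - e h i).natAbs) (fun _ _ => Nat.zero_le _) (mem_univ i)).trans
      (single_le_sum (f := fun z : Fin T × Fin T => ∑ i, (e z.1 i - e z.2 i).natAbs)
        (fun _ _ => Nat.zero_le _) (mem_univ (g, h)))
  obtain ⟨A', hA'⟩ : ∃ A' : ℝ, A' = max 1 ((T * T : ℕ) * (S * C) / δ) := ⟨_, rfl⟩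
  have hA1 : 1 ≤ A' := by rw [hA']; exact le_max_left _ _
  have hA2 : ((T * T : ℕ) : ℝ) * (S * C) ≤ A' * δ := by
    have : ((T * T : ℕ) : ℝ) * (S * C) / δ ≤ A' := by rw [hA']; exact le_max_right _ _
    rwa [div_le_iff₀ hδ] at this
  have hA0 : 0 < A' := by linarith
  refine ⟨(A' ^ (k + 1)) ^ (prs k).card, by positivity, ?_⟩
  have hlog : Tendsto (fun x : ℕ => lam * Real.log (x : ℝ)) atTop atTop :=
    (Real.tendsto_log_atTop.comp tendsto_natCast_atTop_atTop).const_mul_atTop hlam
  filter_upwards [hcell, hlog.eventually_ge_atTop 1] with x hx hx1 γ y H hH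
  have hHr : (0 : ℝ) < H := by linarith
  obtain ⟨Q, hQ⟩ : ∃ Q : Fin T × Fin T → (Fin k → ℤ) → Prop, ∀ z v, Q z v ↔ ((∀ g, 0 ≤ val e γ v g ∧ val e γ v g ≤ x) ∧
      val e γ v z.1 ≠ val e γ v z.2 ∧ A' < hh (Nat.dist (val e γ v z.1).toNat (val e γ v z.2).toNat)) :=
    ⟨_, fun _ _ => Iff.rfl⟩
  have hsub : (Pool.Agent.P8H13.AD.box y H).filter (fun v => (∀ g, 0 ≤ val e γ v g ∧ val e γ v g ≤ x) ∧
        Function.Injective (val e γ v) ∧ ∃ f : Fin (k + 1) → Fin T, Function.Injective f ∧
          (A' ^ (k + 1)) ^ (prs k).card < CT (univ.image (fun a => (val e γ v (f a)).toNat))) ⊆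
      (univ : Finset (Fin T × Fin T)).biUnion (fun z => (Pool.Agent.P8H13.AD.box y H).filter (fun v => Q z v)) := by
    intro v hv
    obtain ⟨hv1, hv2, hv3, f, hf, hCT⟩ := mem_filter.1 hv
    rw [mem_biUnion]
    by_contra hcon
    push Not at hcon
    have hinj : Function.Injective (fun a => (val e γ v (f a)).toNat) := by
      intro a b hab
      have h1 := (hv2 (f a)).1
      have h2 := (hv2 (f b)).1
      have h3 : (val e γ v (f a)).toNat = (val e γ v (f b)).toNat := hab
      exact hf (hv3 (by omega))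
    have h4 := CT_tuple k 1 le_rfl (fun a => (val e γ v (f a)).toNat) hinj (A' ^ (k + 1)) (one_le_pow₀ hA1) (by
      intro z hz
      refine pow_le_pow_left₀ (zero_le_one.trans (one_le_hh _)) ?_ _
      by_contra h5
      apply hcon (f z.1, f z.2) (mem_univ _)
      rw [mem_filter, hQ]
      refine ⟨hv1, hv2, fun h6 => (mem_filter.1 hz).2 (hf (hv3 h6)), not_le.1 h5⟩)
    have h5 : hh 1 = 1 := by
      unfold hh
      simp
    rw [h5, one_pow, one_mul] at h4
    have h6 : (univ.image (fun i => 1 * (fun a => (val e γ v (f a)).toNat) i)) =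
        univ.image (fun a => (val e γ v (f a)).toNat) := by
      congr 1
      funext i
      exact one_mul _
    rw [h6] at h4
    exact absurd hCT (not_lt.2 h4)
  have hone : ∀ z : Fin T × Fin T, (((Pool.Agent.P8H13.AD.box y H).filter (fun v => Q z v)).card : ℝ) ≤
      S * C / A' * (H : ℝ) ^ k := by
    intro z
    by_cases hz : z.1 = z.2
    · have : (Pool.Agent.P8H13.AD.box y H).filter (fun v => Q z v) = ∅ :=
        filter_eq_empty_iff.2 fun v _ h => ((hQ z v).1 h).2.1 (by rw [hz])
      rw [this, card_empty, Nat.cast_zero]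
      positivity
    · obtain ⟨i, hi⟩ := ne_coord hk hT e he z.1 z.2 hz
      have h1 := along y H i (fun v => Q z v) (S * (C / A' * H)) (by
        intro v _
        have h2 := hx H hH (e z.1 i - e z.2 i) hi
          (val e γ (Function.update v i 0) z.1 - val e γ (Function.update v i 0) z.2) (y i) A' hA0
        have h3 : ((Ioc (y i) (y i + H)).filter (fun t : ℤ => Q z (Function.update v i t))).card ≤
            ((Ioc (y i) (y i + H)).filter (fun t : ℤ => (e z.1 i - e z.2 i) * t +
              (val e γ (Function.update v i 0) z.1 - val e γ (Function.update v i 0) z.2) ≠ 0 ∧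
              |(e z.1 i - e z.2 i) * t +
              (val e γ (Function.update v i 0) z.1 - val e γ (Function.update v i 0) z.2)| ≤ x ∧
              A' < hh ((e z.1 i - e z.2 i) * t +
              (val e γ (Function.update v i 0) z.1 - val e γ (Function.update v i 0) z.2)).natAbs)).card := by
          apply card_le_card
          intro t ht
          obtain ⟨ht1, ht2⟩ := mem_filter.1 ht
          rw [hQ] at ht2
          obtain ⟨ht3, ht4, ht5⟩ := ht2
          have e1 : (e z.1 i - e z.2 i) * t +
              (val e γ (Function.update v i 0) z.1 - val e γ (Function.update v i 0) z.2) =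
              val e γ (Function.update v i t) z.1 - val e γ (Function.update v i t) z.2 := by
            rw [val_update e γ v i t z.1, val_update e γ v i t z.2]
            ring
          have h4 := ht3 z.1
          have h5 := ht3 z.2
          rw [mem_filter, e1]
          refine ⟨ht1, sub_ne_zero.2 ht4, ?_, ?_⟩
          · rw [abs_le]
            constructor <;> linarith [h4.1, h4.2, h5.1, h5.2]
          · have e2 : (val e γ (Function.update v i t) z.1 - val e γ (Function.update v i t) z.2).natAbs =
                Nat.dist (val e γ (Function.update v i t) z.1).toNat (val e γ (Function.update v i t) z.2).toNat := by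
              unfold Nat.dist
              omega
            rw [e2]
            exact ht5
        have h4 : (((Ioc (y i) (y i + H)).filter (fun t : ℤ => Q z (Function.update v i t))).card : ℝ) ≤
            ((e z.1 i - e z.2 i).natAbs : ℝ) * (C / A' * H) := le_trans (by exact_mod_cast h3) h2
        refine h4.trans (mul_le_mul_of_nonneg_right ?_ (by positivity))
        exact_mod_cast hSb z.1 z.2 i)
      have h2 : (((Pool.Agent.P8H13.AD.box y H).filter (fun v => Q z v)).card : ℝ) * H ≤
          S * C / A' * (H : ℝ) ^ k * H := by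
        refine h1.trans (le_of_eq ?_)
        ring
      exact le_of_mul_le_mul_right h2 hHr
  have h1 : (((Pool.Agent.P8H13.AD.box y H).filter (fun v => (∀ g, 0 ≤ val e γ v g ∧ val e γ v g ≤ x) ∧
        Function.Injective (val e γ v) ∧ ∃ f : Fin (k + 1) → Fin T, Function.Injective f ∧
          (A' ^ (k + 1)) ^ (prs k).card < CT (univ.image (fun a => (val e γ v (f a)).toNat)))).card : ℝ) ≤
      ∑ z : Fin T × Fin T, (((Pool.Agent.P8H13.AD.box y H).filter (fun v => Q z v)).card : ℝ) := by
    exact_mod_cast (card_le_card hsub).trans card_biUnion_le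
  refine h1.trans ((sum_le_sum fun z _ => hone z).trans ?_)
  rw [sum_const, card_univ, Fintype.card_prod, Fintype.card_fin, nsmul_eq_mul]
  have h2 : (0 : ℝ) ≤ (H : ℝ) ^ k := by positivity
  have h3 : ((T * T : ℕ) : ℝ) * (S * C / A') ≤ δ := by
    rw [← mul_div_assoc, div_le_iff₀ hA0]
    linarith
  calc ((T * T : ℕ) : ℝ) * (S * C / A' * (H : ℝ) ^ k) = ((T * T : ℕ) : ℝ) * (S * C / A') * (H : ℝ) ^ k := by ring
    _ ≤ _ := mul_le_mul_of_nonneg_right h3 h2

end Pool.Agent.P8H13.RR
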